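import Pool.Agent.Helper4.CI.Goals
import Pool.Agent.Helper20.Mono.Crd

/-!
# R2: a cone with a generator of colour `none` has no generator `e_{N+j}`
-/

namespace Mono.CI.R2

open Finset Mono

variable {N k n : ℕ}

/-- `psi` through the basis vectors. -/
theorem psi_eq_sum (Z : Finset (Fin n → ℤ)) {F : Finset (Fin n → ℤ)} (h : Indep F)
    (hc : F.card = n) (x : Fin n → ℝ) :
    psi Z F x = ∑ i, x i * psi Z F (Pi.single i 1) := by
  let f : (Fin n → ℝ) →ₗ[ℝ] ℝ :=
    { toFun := psi Z F
      map_add' := psi_add Z h hc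
      map_smul' := fun a x => by
        rw [psi_smul Z h hc a x]; rfl }
  have h1 := LinearMap.pi_apply_eq_sum_univ f x
  have h2 : ∀ i : Fin n, (fun j => if i = j then (1 : ℝ) else 0) = Pi.single i 1 := by
    intro i
    funext j
    by_cases hij : i = j
    · subst hij; simp
    · rw [if_neg hij, Pi.single_eq_of_ne (fun h' => hij h'.symm)]
  change psi Z F x = _ at h1
  rw [h1]
  refine Finset.sum_congr rfl fun i _ => ?_
  rw [h2 i]
  rfl

theorem lift_castAdd (c : Option (Fin k)) (u : Fin N → ℤ) (i : Fin N) :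
    lift c u (Fin.castAdd k i) = u i := by
  unfold lift
  rw [Fin.append_left]

theorem lift_natAdd (c : Option (Fin k)) (u : Fin N → ℤ) (j : Fin k) :
    lift c u (Fin.natAdd N j) = ind c j := by
  unfold lift
  rw [Fin.append_right]

theorem smul_lift_none (L : ℤ) (u : Fin N → ℤ) :
    L • lift (none : Option (Fin k)) u = lift none (L • u) := by
  funext i
  refine Fin.addCases (fun i => ?_) (fun j => ?_) i
  · rw [Pi.smul_apply, lift_castAdd, lift_castAdd, Pi.smul_apply]
  · rw [Pi.smul_apply, lift_natAdd, lift_natAdd]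
    simp [ind]

theorem single_natAdd_castAdd (j : Fin k) (i : Fin N) :
    (Pi.single (Fin.natAdd N j) 1 : Fin (N + k) → ℤ) (Fin.castAdd k i) = 0 := by
  rw [Pi.single_eq_of_ne]
  intro h
  have := congrArg Fin.val h
  simp at this
  omega

theorem single_notMem_cay {A : Option (Fin k) → Finset (Fin N → ℤ)}
    (h0 : ∀ c, (0 : Fin N → ℤ) ∉ A c) (j : Fin k) :
    (Pi.single (Fin.natAdd N j) 1 : Fin (N + k) → ℤ) ∉ cay A univ := by
  intro h
  unfold cay at h
  rw [Finset.mem_biUnion] at h
  obtain ⟨c, _, h⟩ := h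
  rw [Finset.mem_image] at h
  obtain ⟨u, hu, h⟩ := h
  have : u = 0 := by
    funext i
    have := congrFun h (Fin.castAdd k i)
    rw [lift_castAdd, single_natAdd_castAdd] at this
    exact this
  exact h0 c (this ▸ hu)

theorem starColour : StarColour := by
  intro N k A b L b' Z Φ' Φ h F hF t ht htF j heF
  obtain ⟨hAne, hAnn, hA0, hdisj, hvert', ⟨hZsub, hZb, hNew⟩, hNice⟩ := h.tri
  set e : Fin (N + k) → ℤ := Pi.single (Fin.natAdd N j) 1 with he
  -- `e` is in `Z`
  have heZ : e ∈ Z := by
    have h1 := Φ.mx_sub F hF heF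
    rw [h.vert, Finset.mem_union] at h1
    rcases h1 with h1 | h1
    · exact absurd h1 (single_notMem_cay h.good.zero j)
    · exact h1
  -- the cone of `Φ'`
  have hF' : F.image (up L (Hset A Z)) ∈ Φ'.mx := by
    have h1 := hF
    rw [h.mx, Finset.mem_filter] at h1
    exact h1.2
  set F' := F.image (up L (Hset A Z)) with hF'def
  have hI := Φ'.mx_indep F' hF'
  have hC := Φ'.mx_card F' hF'
  have hLt : lift (none : Option (Fin k)) ((L : ℤ) • t) ∈ F' := by
    have h1 : up L (Hset A Z) (lift none t) = lift none ((L : ℤ) • t) := by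
      unfold up
      rw [if_neg, smul_lift_none]
      intro h2
      unfold Hset at h2
      rw [Finset.mem_union] at h2
      rcases h2 with h2 | h2
      · exact h.notZ t ht h2
      · rw [Finset.mem_biUnion] at h2
        obtain ⟨j', _, h2⟩ := h2
        rw [Finset.mem_image] at h2
        obtain ⟨u, _, h2⟩ := h2
        have := congrFun h2 (Fin.natAdd N j')
        rw [lift_natAdd, lift_natAdd] at this
        simp [ind] at this
    rw [hF'def, Finset.mem_image]
    exact ⟨_, htF, h1⟩
  have heF' : e ∈ F' := by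
    rw [hF'def, Finset.mem_image]
    refine ⟨e, heF, ?_⟩
    unfold up
    rw [if_pos]
    exact Finset.mem_union_left _ heZ
  have hLtS : lift (none : Option (Fin k)) ((L : ℤ) • t) ∈ scay A L := by
    unfold scay
    refine Finset.mem_union_left _ ?_
    rw [Finset.mem_image]
    exact ⟨t, ht, rfl⟩
  have hLtZ : lift (none : Option (Fin k)) ((L : ℤ) • t) ∉ Z :=
    Finset.disjoint_left.1 hdisj hLtS
  have hp1 : psi Z F' (toR (lift (none : Option (Fin k)) ((L : ℤ) • t))) = 1 := by
    rw [psi_toR Z hI hLt, if_neg hLtZ]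
  have hpe : psi Z F' (toR e) = 0 := by
    rw [psi_toR Z hI heF', if_pos heZ]
  obtain ⟨hN1, hN2⟩ := hNew F' hF'
  obtain ⟨t', ht', hsupp⟩ := h.good.cond t ht j
  have ht'S : lift (some j) t' ∈ scay A L := by
    unfold scay
    refine Finset.mem_union_right _ ?_
    rw [Finset.mem_biUnion]
    exact ⟨j, Finset.mem_univ _, Finset.mem_image_of_mem _ ht'⟩
  have h3 := hN1 (lift (some j) t') (by
    rw [Finset.mem_sdiff, hvert']
    exact ⟨Finset.mem_union_left _ ht'S, Finset.disjoint_left.1 hdisj ht'S⟩)
  have hdec : toR (lift (some j) t') = toR (lift (none : Option (Fin k)) t') + toR e := by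
    rw [← toR_add]
    congr 1
    funext i
    refine Fin.addCases (fun i => ?_) (fun j' => ?_) i
    · rw [Pi.add_apply, lift_castAdd, lift_castAdd, he, single_natAdd_castAdd, add_zero]
    · rw [Pi.add_apply, lift_natAdd, lift_natAdd, he]
      by_cases hj : j = j'
      · subst hj; simp [ind]
      · rw [Pi.single_eq_of_ne]
        · simp [ind, hj]
        · intro h'
          have := congrArg Fin.val h'
          simp at this
          exact hj (Fin.ext this.symm)
  rw [hdec, psi_add Z hI hC, hpe, add_zero] at h3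
  -- expand in basis vectors
  have hex : ∀ u : Fin N → ℤ, psi Z F' (toR (lift (none : Option (Fin k)) u))
      = ∑ i : Fin N, (u i : ℝ) * psi Z F' (Pi.single (Fin.castAdd k i) 1) := by
    intro u
    rw [psi_eq_sum Z hI hC, Fin.sum_univ_add]
    have hz : ∑ i : Fin k, toR (lift (none : Option (Fin k)) u) (Fin.natAdd N i) *
        psi Z F' (Pi.single (Fin.natAdd N i) 1) = 0 := by
      refine Finset.sum_eq_zero fun i _ => ?_
      rw [toR_apply, lift_natAdd]
      simp [ind]
    rw [hz, add_zero]
    refine Finset.sum_congr rfl fun i _ => ?_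
    rw [toR_apply, lift_castAdd]
  rw [hex] at h3 hp1
  have hlt : ∀ i : Fin N, (t' i : ℝ) * psi Z F' (Pi.single (Fin.castAdd k i) 1) ≤
      (((L : ℤ) • t) i : ℤ) * psi Z F' (Pi.single (Fin.castAdd k i) 1) := by
    intro i
    refine mul_le_mul_of_nonneg_right ?_ (hN2 _)
    have h5 : t' i ≤ ((L : ℤ) • t) i := by
      rw [Pi.smul_apply, smul_eq_mul]
      rcases (h.good.nonneg none t ht i).lt_or_eq with h6 | h6
      · have h7 := h.lt j t' ht' i
        nlinarith
      · rw [hsupp i h6.symm, ← h6, mul_zero]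
    exact_mod_cast h5
  have hpos : ∃ i : Fin N, 0 < (((L : ℤ) • t) i : ℝ) *
      psi Z F' (Pi.single (Fin.castAdd k i) 1) := by
    by_contra hcon
    push Not at hcon
    have := Finset.sum_nonpos (s := univ) (fun i _ => hcon i)
    linarith
  obtain ⟨i, hi⟩ := hpos
  have hψ : 0 < psi Z F' (Pi.single (Fin.castAdd k i) 1) := by
    rcases (hN2 (Fin.castAdd k i)).lt_or_eq with h6 | h6
    · exact h6
    · rw [← h6, mul_zero] at hi
      exact absurd hi (lt_irrefl _)
  have hti : 0 < t i := by
    rcases (h.good.nonneg none t ht i).lt_or_eq with h6 | h6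
    · exact h6
    · rw [Pi.smul_apply, ← h6, smul_zero, Int.cast_zero, zero_mul] at hi
      exact absurd hi (lt_irrefl _)
  have hstrict : (t' i : ℝ) * psi Z F' (Pi.single (Fin.castAdd k i) 1) <
      (((L : ℤ) • t) i : ℤ) * psi Z F' (Pi.single (Fin.castAdd k i) 1) := by
    refine mul_lt_mul_of_pos_right ?_ hψ
    have h5 : t' i < ((L : ℤ) • t) i := by
      rw [Pi.smul_apply, smul_eq_mul]
      have h7 := h.lt j t' ht' i
      nlinarith
    exact_mod_cast h5
  have := Finset.sum_lt_sum (s := univ) (fun i _ => hlt i) ⟨i, Finset.mem_univ _, hstrict⟩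
  linarith

end Mono.CI.R2
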